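import Pool.Agent.helper7.AL.SpecG

/-!
# Project AL (MP_bf63dc_nt), row GAR: gcd arithmetic of three terms of a geometric progression.
-/

set_option autoImplicit false

namespace Pool.Agent.AL

theorem GAR : GAR_stmt := by
  intro a b a₀ b₀ ha hb ha₀ hb₀ hab hab₀
  have hu : 0 < a * a₀ := Nat.mul_pos ha ha₀
  have hv : 0 < b * b₀ := Nat.mul_pos hb hb₀
  have hu' : 0 < a * a₀ ^ 2 := Nat.mul_pos ha (pow_pos ha₀ 2)
  have hv' : 0 < b * b₀ ^ 2 := Nat.mul_pos hb (pow_pos hb₀ 2)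
  have hg : 0 < Nat.gcd (a * a₀) (b * b₀) := Nat.gcd_pos_of_pos_left _ hu
  have hg' : 0 < Nat.gcd (a * a₀ ^ 2) (b * b₀ ^ 2) := Nat.gcd_pos_of_pos_left _ hu'
  have hcop : Nat.Coprime (lo (a * a₀) (b * b₀)) (lo (b * b₀) (a * a₀)) := by
    unfold lo
    rw [Nat.gcd_comm (b * b₀) (a * a₀)]
    exact Nat.coprime_div_gcd_div_gcd hg
  have hA : lo (a * a₀) (b * b₀) * Nat.gcd (a * a₀) (b * b₀) = a * a₀ :=
    Nat.div_mul_cancel (Nat.gcd_dvd_left _ _)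
  have hB : lo (b * b₀) (a * a₀) * Nat.gcd (a * a₀) (b * b₀) = b * b₀ := by
    unfold lo
    rw [Nat.gcd_comm (b * b₀) (a * a₀)]
    exact Nat.div_mul_cancel (Nat.gcd_dvd_right _ _)
  have hA' : lo (a * a₀ ^ 2) (b * b₀ ^ 2) * Nat.gcd (a * a₀ ^ 2) (b * b₀ ^ 2) = a * a₀ ^ 2 :=
    Nat.div_mul_cancel (Nat.gcd_dvd_left _ _)
  have hB' : lo (b * b₀ ^ 2) (a * a₀ ^ 2) * Nat.gcd (a * a₀ ^ 2) (b * b₀ ^ 2) = b * b₀ ^ 2 := by
    unfold lo
    rw [Nat.gcd_comm (b * b₀ ^ 2) (a * a₀ ^ 2)]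
    exact Nat.div_mul_cancel (Nat.gcd_dvd_right _ _)
  have hgg : Nat.gcd (a * a₀) (b * b₀) ∣ Nat.gcd (a * a₀ ^ 2) (b * b₀ ^ 2) := by
    refine Nat.dvd_gcd ?_ ?_
    · exact dvd_trans (Nat.gcd_dvd_left _ _) ⟨a₀, by ring⟩
    · exact dvd_trans (Nat.gcd_dvd_right _ _) ⟨b₀, by ring⟩
  have hgle := Nat.le_of_dvd hg' hgg
  have h1 : Nat.gcd (a * a₀) (b * b₀) ≤ a₀ * b₀ := by
    refine Nat.le_of_dvd (Nat.mul_pos ha₀ hb₀) ?_
    have e1 : Nat.gcd (a * a₀) (b * b₀) ∣ a * (a₀ * b₀) := dvd_trans (Nat.gcd_dvd_left _ _) ⟨b₀, by ring⟩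
    have e2 : Nat.gcd (a * a₀) (b * b₀) ∣ b * (a₀ * b₀) := dvd_trans (Nat.gcd_dvd_right _ _) ⟨a₀, by ring⟩
    have e3 := Nat.dvd_gcd e1 e2
    rw [Nat.gcd_mul_right, hab.gcd_eq_one, one_mul] at e3
    exact e3
  generalize Nat.gcd (a * a₀) (b * b₀) = g at *
  generalize Nat.gcd (a * a₀ ^ 2) (b * b₀ ^ 2) = g' at *
  generalize lo (a * a₀) (b * b₀) = A at *
  generalize lo (b * b₀) (a * a₀) = B at *
  generalize lo (a * a₀ ^ 2) (b * b₀ ^ 2) = A' at *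
  generalize lo (b * b₀ ^ 2) (a * a₀ ^ 2) = B' at *
  refine ⟨h1, ?_⟩
  have hApos : 0 < A := by
    rcases Nat.eq_zero_or_pos A with h | h
    · rw [h, zero_mul] at hA; omega
    · exact h
  have hA'pos : 0 < A' := by
    rcases Nat.eq_zero_or_pos A' with h | h
    · rw [h, zero_mul] at hA'; omega
    · exact h
  have hrel : A' * b₀ * B = B' * a₀ * A := by
    have hgg' : 0 < g' * g := Nat.mul_pos hg' hg
    refine Nat.eq_of_mul_eq_mul_right hgg' ?_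
    calc A' * b₀ * B * (g' * g) = (A' * g') * (B * g) * b₀ := by ring
      _ = (a * a₀ ^ 2) * (b * b₀) * b₀ := by rw [hA', hB]
      _ = (b * b₀ ^ 2) * (a * a₀) * a₀ := by ring
      _ = (B' * g') * (A * g) * a₀ := by rw [hB', hA]
      _ = B' * a₀ * A * (g' * g) := by ring
  have hdvd : A ∣ A' * b₀ := by
    refine hcop.dvd_of_dvd_mul_right ?_
    exact ⟨B' * a₀, by rw [hrel]; ring⟩
  obtain ⟨κ, hκ⟩ := hdvd
  have hκ1 : A' * b₀ = κ * A := by rw [hκ]; ring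
  have hκ2 : B' * a₀ = κ * B := by
    refine Nat.eq_of_mul_eq_mul_right hApos ?_
    rw [← hrel, hκ1]; ring
  have hκpos : 1 ≤ κ := by
    rcases Nat.eq_zero_or_pos κ with h | h
    · rw [h, zero_mul] at hκ1
      have := Nat.mul_pos hA'pos hb₀
      omega
    · exact h
  refine ⟨κ, hκpos, ?_, hκ1, hκ2⟩
  have hkg : κ * g' = a₀ * b₀ * g := by
    refine Nat.eq_of_mul_eq_mul_right hApos ?_
    calc κ * g' * A = (κ * A) * g' := by ring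
      _ = (A' * b₀) * g' := by rw [hκ1]
      _ = (A' * g') * b₀ := by ring
      _ = (a * a₀ ^ 2) * b₀ := by rw [hA']
      _ = (a * a₀) * a₀ * b₀ := by ring
      _ = (A * g) * a₀ * b₀ := by rw [hA]
      _ = a₀ * b₀ * g * A := by ring
  refine Nat.le_of_mul_le_mul_right ?_ hg
  calc κ * g ≤ κ * g' := Nat.mul_le_mul_left _ hgle
    _ = a₀ * b₀ * g := hkg

end Pool.Agent.AL
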